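import Pool.Agent.H731R6.Dc.Defs

/-!
D1: Beta integrals.  `∫_0^1 t^k (1-t)^l rho = B(k+1/3, l+1/3)`; recursion by `Complex.betaIntegral_recurrence` or
`Real.Gamma_add_one` with `Complex.Gamma_mul_Gamma_eq_betaIntegral` (`B(u,v) = Γ(u)Γ(v)/Γ(u+v)`, `Γ(k+1/3) = ∏_{i<k} (i+1/3) Γ(1/3)`,
`Γ(L+2/3) = ∏_{i<L} (i+2/3) Γ(2/3)`).
-/

set_option autoImplicit false

namespace H731D

open MeasureTheory Filter Topology

namespace D1

theorem integrable {α β : ℝ} (hα : 0 < α) (hβ : 0 < β) :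
    IntegrableOn (fun x : ℝ => x ^ (α - 1) * (1 - x) ^ (β - 1)) (Set.Ioo 0 1) := by
  have h1 := Complex.betaIntegral_convergent (u := α) (v := β) (by simpa) (by simpa)
  rw [intervalIntegrable_iff_integrableOn_Ioc_of_le (by simp)] at h1
  have h2 := (h1.mono_set (show Set.Ioo (0 : ℝ) 1 ⊆ Set.Ioc 0 1 from
    Set.Ioo_subset_Ioc_self)).re
  refine IntegrableOn.congr_fun h2 ?_ measurableSet_Ioo
  intro x hx
  simp only
  have e1 : ((x : ℂ) ^ ((α : ℂ) - 1)) = ((x ^ (α - 1) : ℝ) : ℂ) := by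
    rw [Complex.ofReal_cpow hx.1.le]
    norm_cast
  have e2 : ((1 : ℂ) - (x : ℂ)) ^ ((β : ℂ) - 1) = (((1 - x) ^ (β - 1) : ℝ) : ℂ) := by
    rw [Complex.ofReal_cpow (by linarith [hx.2])]
    norm_cast
  rw [e1, e2, ← Complex.ofReal_mul]
  exact Complex.ofReal_re _

theorem integral_eq {α β : ℝ} (hα : 0 < α) (hβ : 0 < β) :
    ∫ x in Set.Ioo (0 : ℝ) 1, x ^ (α - 1) * (1 - x) ^ (β - 1) =
      ProbabilityTheory.beta α β := by
  rw [ProbabilityTheory.beta_eq_betaIntegralReal α β hα hβ,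
    Complex.betaIntegral, intervalIntegral.integral_of_le (by norm_num),
    ← integral_Ioc_eq_integral_Ioo, ← RCLike.re_to_complex, ← integral_re]
  · refine setIntegral_congr_fun measurableSet_Ioc fun x hx => ?_
    have e1 : ((x : ℂ) ^ ((α : ℂ) - 1)) = ((x ^ (α - 1) : ℝ) : ℂ) := by
      rw [Complex.ofReal_cpow hx.1.le]
      norm_cast
    have e2 : ((1 : ℂ) - (x : ℂ)) ^ ((β : ℂ) - 1) = (((1 - x) ^ (β - 1) : ℝ) : ℂ) := by
      rw [Complex.ofReal_cpow (by linarith [hx.2])]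
      norm_cast
    rw [e1, e2, ← Complex.ofReal_mul]
    exact (Complex.ofReal_re _).symm
  · have h1 := Complex.betaIntegral_convergent (u := α) (v := β) (by simpa) (by simpa)
    rw [intervalIntegrable_iff_integrableOn_Ioc_of_le (by simp)] at h1
    exact h1

theorem rho_eq {t : ℝ} (ht : t ∈ Set.Ioo (0 : ℝ) 1) :
    rho t = t ^ ((1 / 3 : ℝ) - 1) * (1 - t) ^ ((1 / 3 : ℝ) - 1) := by
  unfold rho
  have e : (-(2 : ℝ) / 3) = (1 / 3 : ℝ) - 1 := by norm_num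
  rw [e, Real.mul_rpow ht.1.le (by linarith [ht.2])]

theorem prod_eq (k l : ℕ) {t : ℝ} (ht : t ∈ Set.Ioo (0 : ℝ) 1) :
    t ^ k * (1 - t) ^ l * rho t =
      t ^ ((k + 1 / 3 : ℝ) - 1) * (1 - t) ^ ((l + 1 / 3 : ℝ) - 1) := by
  have h1 : (0 : ℝ) < t := ht.1
  have h2 : (0 : ℝ) < 1 - t := by linarith [ht.2]
  have e1 : t ^ ((k + 1 / 3 : ℝ) - 1) = t ^ k * t ^ ((1 / 3 : ℝ) - 1) := by
    rw [← Real.rpow_natCast, ← Real.rpow_add h1]
    congr 1
    ring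
  have e2 : (1 - t) ^ ((l + 1 / 3 : ℝ) - 1) = (1 - t) ^ l * (1 - t) ^ ((1 / 3 : ℝ) - 1) := by
    rw [← Real.rpow_natCast (1 - t), ← Real.rpow_add h2]
    congr 1
    ring
  rw [rho_eq ht, e1, e2]
  ring

theorem int_rho (k l : ℕ) : ∫ t in Set.Ioo (0 : ℝ) 1, t ^ k * (1 - t) ^ l * rho t =
    ProbabilityTheory.beta (k + 1 / 3) (l + 1 / 3) := by
  rw [← integral_eq (by positivity) (by positivity)]
  exact setIntegral_congr_fun measurableSet_Ioo fun t ht => prod_eq k l ht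

theorem gamma_add (s : ℝ) (hs : 0 < s) (k : ℕ) :
    Real.Gamma (k + s) = (∏ i ∈ Finset.range k, ((i : ℝ) + s)) * Real.Gamma s := by
  induction k with
  | zero => simp
  | succ k ih =>
    have e : ((k + 1 : ℕ) : ℝ) + s = (k + s) + 1 := by push_cast; ring
    rw [e, Real.Gamma_add_one (by positivity), ih, Finset.prod_range_succ]
    ring

end D1

theorem rho_int : IntegrableOn rho (Set.Ioo 0 1) := by
  refine IntegrableOn.congr_fun (D1.integrable (α := 1 / 3) (β := 1 / 3) (by norm_num)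
    (by norm_num)) ?_ measurableSet_Ioo
  intro t ht
  exact (D1.rho_eq ht).symm

theorem rho_pos : 0 < ∫ t in Set.Ioo (0:ℝ) 1, rho t := by
  have h := D1.int_rho 0 0
  simp only [pow_zero, one_mul] at h
  rw [h]
  exact ProbabilityTheory.beta_pos (by norm_num) (by norm_num)

theorem bb_eq {L k : ℕ} (hk : k ≤ L) : bb L k =
    (∫ t in Set.Ioo (0:ℝ) 1, (L.choose k : ℝ) * t^k * (1 - t)^(L - k) * rho t) /
      ∫ t in Set.Ioo (0:ℝ) 1, rho t := by
  have h0 := D1.int_rho 0 0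
  simp only [pow_zero, one_mul] at h0
  have h1 : ∫ t in Set.Ioo (0:ℝ) 1, (L.choose k : ℝ) * t^k * (1 - t)^(L - k) * rho t =
      (L.choose k : ℝ) * ProbabilityTheory.beta (k + 1 / 3) ((L - k : ℕ) + 1 / 3) := by
    rw [← D1.int_rho k (L - k), ← integral_const_mul]
    congr 1
    funext t
    ring
  rw [h0, h1]
  unfold bb ProbabilityTheory.beta
  have g1 := D1.gamma_add (1 / 3) (by norm_num) k
  have g2 := D1.gamma_add (1 / 3) (by norm_num) (L - k)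
  have g3 := D1.gamma_add (2 / 3) (by norm_num) L
  have e3 : ((k : ℝ) + 1 / 3 + ((L - k : ℕ) + 1 / 3)) = L + 2 / 3 := by
    rw [Nat.cast_sub hk]
    ring
  have e4 : (((0 : ℕ) : ℝ) + 1 / 3 + (((0 : ℕ) : ℝ) + 1 / 3)) = 2 / 3 := by
    norm_num
  have e5 : (((0 : ℕ) : ℝ) + 1 / 3) = 1 / 3 := by norm_num
  have p3 : ∏ i ∈ Finset.range L, ((i : ℝ) + 2 / 3) ≠ 0 :=
    Finset.prod_ne_zero_iff.2 fun i _ => by positivity
  rw [e3, e4, e5, g1, g2, g3]
  clear g1 g2 g3 h0 h1 e3 e4 e5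
  generalize (∏ i ∈ Finset.range k, ((i : ℝ) + 1 / 3)) = P1
  generalize (∏ i ∈ Finset.range (L - k), ((i : ℝ) + 1 / 3)) = P2
  generalize (∏ i ∈ Finset.range L, ((i : ℝ) + 2 / 3)) = P3 at p3 ⊢
  have p1 : Real.Gamma (1 / 3) ≠ 0 := (Real.Gamma_pos_of_pos (by norm_num)).ne'
  have p2 : Real.Gamma (2 / 3) ≠ 0 := (Real.Gamma_pos_of_pos (by norm_num)).ne'
  field_simp

end H731D
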