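import Pool.Agent.H731R6.Dc.Defs

/-!
D2: law of large numbers for the binomial law (Chebyshev): `∑_k C(L,k) t^k (1-t)^(L-k) (k - L t)² = L t (1-t)`
(`bernsteinPolynomial.variance`), so the mass of `|k/L - t| ≥ δ` is `≤ 1/(4 L δ²) → 0`.
-/

set_option autoImplicit false

namespace H731D

open MeasureTheory Filter Topology

/-- total mass of the binomial law -/
theorem binom_total (L : ℕ) (t : ℝ) :
    ∑ k ∈ Finset.range (L + 1), (L.choose k : ℝ) * t^k * (1 - t)^(L - k) = 1 := by
  have h := add_pow t (1 - t) L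
  rw [show t + (1 - t) = 1 by ring, one_pow] at h
  refine Eq.trans ?_ h.symm
  refine Finset.sum_congr rfl fun k _ => ?_
  ring

/-- variance of the binomial law -/
theorem binom_var (L : ℕ) (t : ℝ) :
    ∑ k ∈ Finset.range (L + 1), ((L : ℝ) * t - k)^2 * ((L.choose k : ℝ) * t^k * (1 - t)^(L - k))
      = L * t * (1 - t) := by
  have h := congrArg (Polynomial.eval t) (bernsteinPolynomial.variance ℝ L)
  simp only [Polynomial.eval_finsetSum, bernsteinPolynomial, Polynomial.eval_mul, Polynomial.eval_pow,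
    Polynomial.eval_sub, Polynomial.eval_X, Polynomial.eval_one,
    Polynomial.eval_natCast, nsmul_eq_mul] at h
  exact h

theorem binom_nonneg (L k : ℕ) (t : ℝ) (h0 : 0 < t) (h1 : t < 1) :
    0 ≤ (L.choose k : ℝ) * t^k * (1 - t)^(L - k) := by
  have : 0 ≤ 1 - t := by linarith
  positivity

/-- Chebyshev -/
theorem binom_cheb (L : ℕ) (hL : 0 < L) (t : ℝ) (h0 : 0 < t) (h1 : t < 1) (δ : ℝ) (hδ : 0 < δ)
    (S : Finset ℕ) (hS : S ⊆ Finset.range (L + 1)) (hd : ∀ k ∈ S, δ * L ≤ |(L : ℝ) * t - k|) :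
    ∑ k ∈ S, (L.choose k : ℝ) * t^k * (1 - t)^(L - k) ≤ (1 / δ^2) * (1 / (L : ℝ)) := by
  have hLr : (0 : ℝ) < L := by exact_mod_cast hL
  have h2 : (δ * L)^2 * ∑ k ∈ S, (L.choose k : ℝ) * t^k * (1 - t)^(L - k) ≤ L * t * (1 - t) := by
    rw [← binom_var L t, Finset.mul_sum]
    calc ∑ k ∈ S, (δ * L)^2 * ((L.choose k : ℝ) * t^k * (1 - t)^(L - k))
        ≤ ∑ k ∈ S, ((L : ℝ) * t - k)^2 * ((L.choose k : ℝ) * t^k * (1 - t)^(L - k)) := by
          refine Finset.sum_le_sum fun k hk => ?_
          refine mul_le_mul_of_nonneg_right ?_ (binom_nonneg L k t h0 h1)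
          rw [← sq_abs ((L : ℝ) * t - k)]
          exact pow_le_pow_left₀ (by positivity) (hd k hk) 2
      _ ≤ _ := by
          refine Finset.sum_le_sum_of_subset_of_nonneg hS fun k _ _ => ?_
          exact mul_nonneg (sq_nonneg _) (binom_nonneg L k t h0 h1)
  have h3 : L * t * (1 - t) ≤ (L : ℝ) := by
    have : t * (1 - t) ≤ 1 := by nlinarith
    nlinarith
  have h4 : ∑ k ∈ S, (L.choose k : ℝ) * t^k * (1 - t)^(L - k) ≤ L / (δ * L)^2 := by
    rw [le_div_iff₀ (by positivity)]
    linarith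
  refine h4.trans (le_of_eq ?_)
  field_simp

theorem binom_tail {a L : ℕ → ℕ} {x : ℝ} (hL : Tendsto L atTop atTop)
    (hx : Tendsto (fun n => (a n : ℝ) / (L n : ℝ)) atTop (𝓝 x)) (t : ℝ) (h0 : 0 < t) (h1 : t < 1)
    (hne : t ≠ x) :
    Tendsto (fun n => ∑ k ∈ Finset.Icc (a n + 1) (L n),
      ((L n).choose k : ℝ) * t^k * (1 - t)^(L n - k)) atTop (𝓝 (if x < t then 1 else 0)) := by
  have hLr : Tendsto (fun n => (L n : ℝ)) atTop atTop := tendsto_natCast_atTop_atTop.comp hL
  have hinv : ∀ c : ℝ, Tendsto (fun n => c * (1 / (L n : ℝ))) atTop (𝓝 0) := by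
    intro c
    have := (tendsto_inv_atTop_zero.comp hLr).const_mul c
    simpa [one_div] using this
  have hpos : ∀ᶠ n in atTop, 0 < L n := hL.eventually_gt_atTop 0
  rcases lt_or_gt_of_ne hne with hlt | hgt
  · -- t < x : the sum tends to 0
    rw [if_neg (not_lt.2 hlt.le)]
    have hδ : 0 < (x - t) / 2 := by linarith
    have hev : ∀ᶠ n in atTop, (x + t) / 2 < (a n : ℝ) / (L n : ℝ) :=
      hx.eventually (lt_mem_nhds (by linarith))
    refine squeeze_zero' (Eventually.of_forall fun n => Finset.sum_nonneg fun k _ =>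
      binom_nonneg _ _ _ h0 h1) ?_ (hinv (1 / ((x - t) / 2)^2))
    filter_upwards [hpos, hev] with n hn hn2
    refine binom_cheb (L n) hn t h0 h1 _ hδ _ ?_ ?_
    · intro k hk
      rw [Finset.mem_Icc] at hk
      rw [Finset.mem_range]
      omega
    · intro k hk
      rw [Finset.mem_Icc] at hk
      have hLp : (0 : ℝ) < L n := by exact_mod_cast hn
      rw [lt_div_iff₀ hLp] at hn2
      have hk1 : (a n : ℝ) ≤ k := by
        have : a n ≤ k := by omega
        exact_mod_cast this
      rw [abs_sub_comm]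
      refine le_trans ?_ (le_abs_self _)
      nlinarith
  · -- x < t : the complement tends to 0
    rw [if_pos hgt]
    have hδ : 0 < (t - x) / 2 := by linarith
    have hev : ∀ᶠ n in atTop, (a n : ℝ) / (L n : ℝ) < (x + t) / 2 :=
      hx.eventually (gt_mem_nhds (by linarith))
    have hcomp : Tendsto (fun n => ∑ k ∈ (Finset.range (L n + 1)).filter (fun k => k ≤ a n),
        ((L n).choose k : ℝ) * t^k * (1 - t)^(L n - k)) atTop (𝓝 0) := by
      refine squeeze_zero' (Eventually.of_forall fun n => Finset.sum_nonneg fun k _ =>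
        binom_nonneg _ _ _ h0 h1) ?_ (hinv (1 / ((t - x) / 2)^2))
      filter_upwards [hpos, hev] with n hn hn2
      refine binom_cheb (L n) hn t h0 h1 _ hδ _ (Finset.filter_subset _ _) ?_
      intro k hk
      rw [Finset.mem_filter] at hk
      have hLp : (0 : ℝ) < L n := by exact_mod_cast hn
      rw [div_lt_iff₀ hLp] at hn2
      have hk1 : (k : ℝ) ≤ a n := by exact_mod_cast hk.2
      refine le_trans ?_ (le_abs_self _)
      nlinarith
    have heq : ∀ n, ∑ k ∈ Finset.Icc (a n + 1) (L n),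
        ((L n).choose k : ℝ) * t^k * (1 - t)^(L n - k) =
        1 - ∑ k ∈ (Finset.range (L n + 1)).filter (fun k => k ≤ a n),
          ((L n).choose k : ℝ) * t^k * (1 - t)^(L n - k) := by
      intro n
      have htot := binom_total (L n) t
      rw [← Finset.sum_filter_add_sum_filter_not (Finset.range (L n + 1))
        (fun k => k ≤ a n)] at htot
      rw [eq_sub_iff_add_eq]
      refine Eq.trans ?_ htot
      rw [add_comm]
      congr 1
      refine Finset.sum_congr ?_ fun _ _ => rfl
      ext k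
      simp only [Finset.mem_Icc, Finset.mem_filter, Finset.mem_range]
      omega
    have h5 := hcomp.const_sub 1
    rw [sub_zero] at h5
    exact h5.congr fun n => (heq n).symm

end H731D
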