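import Pool.Agent.H731R6.Dc.D1
import Pool.Agent.H731R6.Dc.D2

/-!
D3: the scaling limit: `bb_eq`, exchange the finite sum and the integral, dominated convergence (`0 ≤ ∑ … ≤ 1`, dominating
function `rho`), `binom_tail` for almost every `t`.
-/

set_option autoImplicit false

namespace H731D

open MeasureTheory Filter Topology

theorem D3_rho_nonneg {t : ℝ} (ht : t ∈ Set.Ioo (0:ℝ) 1) : 0 ≤ rho t := by
  unfold rho
  exact Real.rpow_nonneg (mul_nonneg ht.1.le (sub_nonneg.mpr ht.2.le)) _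

theorem D3_term {t : ℝ} (ht : t ∈ Set.Ioo (0:ℝ) 1) (N k : ℕ) :
    0 ≤ (N.choose k : ℝ) * t ^ k * (1 - t) ^ (N - k) := by
  have h1 : 0 ≤ t := ht.1.le
  have h2 : 0 ≤ 1 - t := sub_nonneg.mpr ht.2.le
  positivity

theorem D3_sum_le {t : ℝ} (ht : t ∈ Set.Ioo (0:ℝ) 1) (a N : ℕ) :
    ∑ k ∈ Finset.Icc (a + 1) N, (N.choose k : ℝ) * t ^ k * (1 - t) ^ (N - k) ≤ 1 := by
  have h1 : ∑ k ∈ Finset.range (N + 1), (N.choose k : ℝ) * t ^ k * (1 - t) ^ (N - k) = 1 := by
    have h2 := add_pow t (1 - t) N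
    rw [add_sub_cancel, one_pow] at h2
    refine Eq.trans ?_ h2.symm
    apply Finset.sum_congr rfl
    intro k _
    ring
  refine le_trans ?_ h1.le
  apply Finset.sum_le_sum_of_subset_of_nonneg
  · intro k hk
    rw [Finset.mem_Icc] at hk
    rw [Finset.mem_range]
    omega
  · intro k _ _
    exact D3_term ht N k

theorem D3_meas (N k : ℕ) : AEStronglyMeasurable
    (fun t : ℝ => (N.choose k : ℝ) * t ^ k * (1 - t) ^ (N - k) * rho t)
    (volume.restrict (Set.Ioo (0:ℝ) 1)) := by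
  have hc : Continuous (fun t : ℝ => (N.choose k : ℝ) * t ^ k * (1 - t) ^ (N - k)) := by
    fun_prop
  exact hc.aestronglyMeasurable.mul rho_int.aestronglyMeasurable

theorem D3_integrable (N k : ℕ) : Integrable
    (fun t : ℝ => (N.choose k : ℝ) * t ^ k * (1 - t) ^ (N - k) * rho t)
    (volume.restrict (Set.Ioo (0:ℝ) 1)) := by
  refine Integrable.mono' (rho_int.integrable.const_mul (N.choose k : ℝ)) (D3_meas N k) ?_
  rw [ae_restrict_iff' measurableSet_Ioo]
  refine Filter.Eventually.of_forall (fun t ht => ?_)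
  have hr := D3_rho_nonneg ht
  have h1 : 0 ≤ t := ht.1.le
  have h2 : 0 ≤ 1 - t := sub_nonneg.mpr ht.2.le
  rw [Real.norm_eq_abs, abs_of_nonneg (mul_nonneg (D3_term ht N k) hr)]
  apply mul_le_mul_of_nonneg_right _ hr
  have h3 : t ^ k ≤ 1 := pow_le_one₀ h1 ht.2.le
  have h4 : (1 - t) ^ (N - k) ≤ 1 := pow_le_one₀ h2 (by linarith)
  have h5 : 0 ≤ (N.choose k : ℝ) := by positivity
  have h6 : 0 ≤ t ^ k := by positivity
  calc (N.choose k : ℝ) * t ^ k * (1 - t) ^ (N - k) ≤ (N.choose k : ℝ) * t ^ k * 1 :=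
        mul_le_mul_of_nonneg_left h4 (mul_nonneg h5 h6)
    _ ≤ (N.choose k : ℝ) * 1 * 1 :=
        mul_le_mul_of_nonneg_right (mul_le_mul_of_nonneg_left h3 h5) zero_le_one
    _ = (N.choose k : ℝ) := by ring

theorem bb_limit {a L : ℕ → ℕ} {x : ℝ} (h0 : 0 ≤ x) (h1 : x ≤ 1) (hL : Tendsto L atTop atTop)
    (hx : Tendsto (fun n => (a n : ℝ) / (L n : ℝ)) atTop (𝓝 x)) :
    Tendsto (fun n => ∑ k ∈ Finset.Icc (a n + 1) (L n), bb (L n) k) atTop
      (𝓝 ((∫ t in x..1, rho t) / ∫ t in (0:ℝ)..1, rho t)) := by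
  have hZ : ∫ t in (0:ℝ)..1, rho t = ∫ t in Set.Ioo (0:ℝ) 1, rho t := by
    rw [intervalIntegral.integral_of_le zero_le_one, integral_Ioc_eq_integral_Ioo]
  have hX : ∫ t in x..1, rho t =
      ∫ t in Set.Ioo (0:ℝ) 1, (if x < t then (1:ℝ) else 0) * rho t := by
    rw [intervalIntegral.integral_of_le h1, integral_Ioc_eq_integral_Ioo]
    have e1 : (fun t => (if x < t then (1:ℝ) else 0) * rho t) = (Set.Ioi x).indicator rho := by
      funext t
      by_cases h : x < t
      · rw [if_pos h, one_mul, Set.indicator_of_mem (Set.mem_Ioi.mpr h)]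
      · rw [if_neg h, zero_mul, Set.indicator_of_notMem (fun h' => h (Set.mem_Ioi.mp h'))]
    rw [e1, setIntegral_indicator measurableSet_Ioi]
    have e2 : Set.Ioo (0:ℝ) 1 ∩ Set.Ioi x = Set.Ioo x 1 := by
      ext t
      simp only [Set.mem_inter_iff, Set.mem_Ioo, Set.mem_Ioi]
      constructor
      · rintro ⟨⟨_, h3⟩, h4⟩
        exact ⟨h4, h3⟩
      · rintro ⟨h3, h4⟩
        exact ⟨⟨lt_of_le_of_lt h0 h3, h4⟩, h3⟩
    rw [e2]
  set g : ℕ → ℝ → ℝ := fun n t => ∑ k ∈ Finset.Icc (a n + 1) (L n),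
    ((L n).choose k : ℝ) * t ^ k * (1 - t) ^ (L n - k) with hg
  have hgr : ∀ n t, g n t * rho t = ∑ k ∈ Finset.Icc (a n + 1) (L n),
      ((L n).choose k : ℝ) * t ^ k * (1 - t) ^ (L n - k) * rho t := by
    intro n t
    simp only [hg]
    rw [Finset.sum_mul]
  have hsum : ∀ n, ∑ k ∈ Finset.Icc (a n + 1) (L n), bb (L n) k =
      (∫ t in Set.Ioo (0:ℝ) 1, g n t * rho t) / ∫ t in Set.Ioo (0:ℝ) 1, rho t := by
    intro n
    simp_rw [hgr n]
    rw [integral_finset_sum _ (fun k _ => D3_integrable (L n) k), Finset.sum_div]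
    apply Finset.sum_congr rfl
    intro k hk
    rw [Finset.mem_Icc] at hk
    exact bb_eq hk.2
  simp_rw [hsum]
  rw [hZ, hX]
  apply Tendsto.div_const
  refine tendsto_integral_of_dominated_convergence rho ?_ rho_int.integrable ?_ ?_
  · intro n
    simp_rw [hgr n]
    exact (integrable_finset_sum _ (fun k _ => D3_integrable (L n) k)).aestronglyMeasurable
  · intro n
    rw [ae_restrict_iff' measurableSet_Ioo]
    refine Filter.Eventually.of_forall (fun t ht => ?_)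
    have hr := D3_rho_nonneg ht
    have hn : 0 ≤ g n t := Finset.sum_nonneg (fun k _ => D3_term ht (L n) k)
    rw [Real.norm_eq_abs, abs_of_nonneg (mul_nonneg hn hr)]
    calc g n t * rho t ≤ 1 * rho t :=
          mul_le_mul_of_nonneg_right (D3_sum_le ht (a n) (L n)) hr
      _ = rho t := one_mul _
  · rw [ae_restrict_iff' measurableSet_Ioo]
    have hne : ∀ᵐ t : ℝ ∂volume, t ≠ x := by
      rw [ae_iff]
      simp
    filter_upwards [hne] with t htx ht
    exact (binom_tail hL hx t ht.1 ht.2 htx).mul_const (rho t)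

end H731D
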