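import Pool.Agent.H731R6.Dc.D3
import Pool.Agent.H31C.Stubs

/-!
D4: block D of the exact discrete Cardy formula: `H31C.S_D`.
-/

set_option autoImplicit false

namespace H731D

open MeasureTheory Filter Topology
open Pool.Agent.H31C

theorem bw_eq (L k : ℕ) : bw L k = bb L k := by
  unfold bw bb ris
  have h : ∀ (s : ℝ) (n : ℕ), ∏ i ∈ Finset.range n, (s + (i : ℝ)) =
      ∏ i ∈ Finset.range n, ((i : ℝ) + s) := by
    intro s n
    exact Finset.prod_congr rfl (fun i _ => add_comm _ _)
  rw [h, h, h]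

theorem sum_bb (L : ℕ) : ∑ k ∈ Finset.range (L + 1), bb L k = 1 := by
  have h1 : ∑ k ∈ Finset.range (L + 1), bb L k =
      (∑ k ∈ Finset.range (L + 1), ∫ t in Set.Ioo (0:ℝ) 1,
        (L.choose k : ℝ) * t^k * (1 - t)^(L - k) * rho t) / ∫ t in Set.Ioo (0:ℝ) 1, rho t := by
    rw [Finset.sum_div]
    apply Finset.sum_congr rfl
    intro k hk
    exact bb_eq (Nat.lt_succ_iff.1 (Finset.mem_range.1 hk))
  rw [h1, ← integral_finsetSum _ (fun k _ => D3_integrable L k)]
  have h2 : ∀ t : ℝ, ∑ k ∈ Finset.range (L + 1), (L.choose k : ℝ) * t^k * (1 - t)^(L - k) * rho t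
      = rho t := by
    intro t
    rw [← Finset.sum_mul]
    have h3 := add_pow t (1 - t) L
    rw [add_sub_cancel, one_pow] at h3
    have h4 : ∑ k ∈ Finset.range (L + 1), (L.choose k : ℝ) * t ^ k * (1 - t) ^ (L - k) = 1 := by
      refine Eq.trans ?_ h3.symm
      apply Finset.sum_congr rfl
      intro k _
      ring
    rw [h4, one_mul]
  simp_rw [h2]
  exact div_self rho_pos.ne'

theorem rho_ii (a b : ℝ) (ha : 0 ≤ a) (hb : b ≤ 1) (hab : a ≤ b) :
    IntervalIntegrable rho volume a b := by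
  rw [intervalIntegrable_iff_integrableOn_Ioo_of_le hab]
  exact rho_int.mono_set (Set.Ioo_subset_Ioo ha hb)

theorem s_D : S_D := by
  intro a b x hx h1 h2
  have hL : Tendsto (fun n => a n + b n + 1) atTop atTop := by
    rw [← tendsto_natCast_atTop_iff (R := ℝ)]
    refine Tendsto.congr (fun n => ?_) (tendsto_atTop_add_const_right atTop (1:ℝ) h1)
    push_cast
    ring
  have h3 : Tendsto (fun n => (a n : ℝ) / ((a n + b n + 1 : ℕ) : ℝ)) atTop (𝓝 x) := by
    have h4 : Tendsto (fun n => ((a n : ℝ) + b n) / ((a n : ℝ) + b n + 1)) atTop (𝓝 1) := by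
      have h5 : Tendsto (fun n => 1 - 1 / ((a n : ℝ) + b n + 1)) atTop (𝓝 (1 - 0)) := by
        refine tendsto_const_nhds.sub ?_
        exact tendsto_const_nhds.div_atTop (tendsto_atTop_add_const_right atTop (1:ℝ) h1)
      rw [sub_zero] at h5
      refine h5.congr (fun n => ?_)
      have : (0:ℝ) < (a n : ℝ) + b n + 1 := by positivity
      field_simp
      ring
    have h5 := h2.mul h4
    rw [mul_one] at h5
    refine h5.congr' ?_
    filter_upwards [h1.eventually_gt_atTop 0] with n hn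
    have : (0:ℝ) < (a n : ℝ) + b n + 1 := by positivity
    push_cast
    field_simp
  have h6 := bb_limit hx.1 hx.2 hL h3
  have h7 : ∀ n, ∑ k ∈ Finset.range (a n + 1), bw (a n + b n + 1) k =
      1 - ∑ k ∈ Finset.Icc (a n + 1) (a n + b n + 1), bb (a n + b n + 1) k := by
    intro n
    rw [← sum_bb (a n + b n + 1)]
    have h8 : Finset.range (a n + b n + 1 + 1) =
        Finset.range (a n + 1) ∪ Finset.Icc (a n + 1) (a n + b n + 1) := by
      ext k
      simp only [Finset.mem_range, Finset.mem_union, Finset.mem_Icc]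
      omega
    have h9 : Disjoint (Finset.range (a n + 1)) (Finset.Icc (a n + 1) (a n + b n + 1)) := by
      rw [Finset.disjoint_left]
      intro k hk hk'
      rw [Finset.mem_range] at hk
      rw [Finset.mem_Icc] at hk'
      omega
    rw [h8, Finset.sum_union h9, add_sub_cancel_right]
    exact Finset.sum_congr rfl (fun k _ => bw_eq _ _)
  simp_rw [h7]
  have h10 : (∫ t in (0:ℝ)..x, (t*(1-t))^(-(2:ℝ)/3)) / (∫ t in (0:ℝ)..1, (t*(1-t))^(-(2:ℝ)/3)) =
      1 - (∫ t in x..1, rho t) / ∫ t in (0:ℝ)..1, rho t := by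
    show (∫ t in (0:ℝ)..x, rho t) / (∫ t in (0:ℝ)..1, rho t) = _
    have h11 := intervalIntegral.integral_add_adjacent_intervals
      (rho_ii 0 x le_rfl hx.2 hx.1) (rho_ii x 1 hx.1 le_rfl hx.2)
    have h12 : (0:ℝ) < ∫ t in (0:ℝ)..1, rho t := by
      rw [intervalIntegral.integral_of_le zero_le_one, integral_Ioc_eq_integral_Ioo]
      exact rho_pos
    rw [← h11] at h12 ⊢
    field_simp
    ring
  rw [h10]
  exact tendsto_const_nhds.sub h6

end H731D
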