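import Mathlib

/-!
The beta-binomial law with parameters `1/3, 1/3` and its scaling limit, the Beta(1/3,1/3) law (Cardy's formula): definitions.
-/

set_option autoImplicit false

namespace H731D

open MeasureTheory Filter Topology

/-- the beta-binomial weights `binom(L,k) (1/3)_k (1/3)_{L-k} / (2/3)_L` -/
noncomputable def bb (L k : ℕ) : ℝ :=
  (L.choose k : ℝ) * (∏ i ∈ Finset.range k, ((i : ℝ) + 1 / 3)) *
    (∏ i ∈ Finset.range (L - k), ((i : ℝ) + 1 / 3)) / ∏ i ∈ Finset.range L, ((i : ℝ) + 2 / 3)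

/-- the density (up to the constant) -/
noncomputable def rho (t : ℝ) : ℝ := (t * (1 - t)) ^ (-(2 : ℝ) / 3)

end H731D
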